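import Pool.Agent.X225.Hm.Collapse
import Pool.Agent.X225.Hm.Form

/-!
# Clique complexes of Hamming distance graphs collapse to dimension `2 ^ r - 1`

To a binary string we attach a vector over a field of characteristic two such that a bilinear form
on the space of dimension `2 ^ (r + 1)` vanishes on the vectors of two strings exactly if their
Hamming distance is at most `r`.  Faces of the complex are closed under adding strings whose
vectors are spanned by the vectors of the face, and a face with independent vectors spans an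
isotropic subspace, so it has at most `2 ^ r` elements.  Matching `σ` with `σ` changed at the
smallest vertex that is spanned by the larger vertices of `σ` gives the collapse.
-/

namespace Pool.Agent.Results.MP_6ffc1e_gt.CollapseHamming

open Finset X225.Hm

/-- Hamming distance of the binary expansions of two natural numbers: the number of places at
which the binary digits differ. -/
noncomputable def hd (x y : ℕ) : ℕ := {i : ℕ | x.testBit i ≠ y.testBit i}.ncard

open Classical in
/-- the clique complex of `G_m^r`: nonempty subsets of `{0, …, m - 1}` whose distinct elements have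
pairwise Hamming distance at most `r`. -/
noncomputable def Cl (m r : ℕ) : Finset (Finset ℕ) :=
  (range m).powerset.filter fun σ => σ.Nonempty ∧ ∀ x ∈ σ, ∀ y ∈ σ, x ≠ y → hd x y ≤ r

lemma mem_Cl {m r : ℕ} {σ : Finset ℕ} : σ ∈ Cl m r ↔ σ ⊆ range m ∧ σ.Nonempty ∧
    ∀ x ∈ σ, ∀ y ∈ σ, x ≠ y → hd x y ≤ r := by
  unfold Cl
  rw [mem_filter, mem_powerset]

/-- The faces of `K` of dimension at most `k`, that is with at most `k + 1` elements. -/
def skeleton (K : Finset (Finset ℕ)) (k : ℕ) : Finset (Finset ℕ) := K.filter fun σ => σ.card ≤ k + 1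

/-- `L` is a subcomplex of `K`. -/
def IsSubcomplex (L K : Finset (Finset ℕ)) : Prop :=
  L ⊆ K ∧ ∀ σ ∈ L, ∀ ρ, ρ ⊆ σ → ρ.Nonempty → ρ ∈ L

/-- the binary string of length `n` -/
def str (n x : ℕ) : Fin n → Bool := fun i => x.testBit i

lemma hdist_str {n x y : ℕ} (hx : x < 2 ^ n) (hy : y < 2 ^ n) :
    hdist (str n x) (str n y) = hd x y := by
  unfold hdist hd
  have h1 : {i : ℕ | x.testBit i ≠ y.testBit i} =
      (fun i : Fin n => (i : ℕ)) '' {k : Fin n | str n x k ≠ str n y k} := by
    ext i
    simp only [Set.mem_setOf_eq, Set.mem_image, str]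
    constructor
    · intro h
      have hi : i < n := by
        by_contra hcon
        push Not at hcon
        apply h
        rw [Nat.testBit_lt_two_pow (lt_of_lt_of_le hx (Nat.pow_le_pow_right (by norm_num) hcon)),
          Nat.testBit_lt_two_pow (lt_of_lt_of_le hy (Nat.pow_le_pow_right (by norm_num) hcon))]
      exact ⟨⟨i, hi⟩, h, rfl⟩
    · rintro ⟨k, hk, rfl⟩
      exact hk
  rw [h1, Set.ncard_image_of_injective _ Fin.val_injective]

lemma hd_self (x : ℕ) : hd x x = 0 := by
  unfold hd
  simp

lemma collapses_subset {K L : Finset (Finset ℕ)} (h : Collapses K L) : L ⊆ K := by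
  induction h with
  | refl => exact Subset.rfl
  | tail _ h2 ih =>
    obtain ⟨σ, _, τ, _, _, _, _, rfl⟩ := h2
    exact sdiff_subset.trans ih

lemma collapses_down {K L : Finset (Finset ℕ)} (h : Collapses K L)
    (hK : ∀ σ ∈ K, ∀ ρ, ρ ⊆ σ → ρ.Nonempty → ρ ∈ K) :
    ∀ σ ∈ L, ∀ ρ, ρ ⊆ σ → ρ.Nonempty → ρ ∈ L := by
  induction h with
  | refl => exact hK
  | tail _ h2 ih =>
    obtain ⟨σ, hσ, τ, hτ, hστ, hc, huniq, rfl⟩ := h2
    intro α hα ρ hρα hρ
    rw [mem_sdiff, mem_insert, mem_singleton, not_or] at hα ⊢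
    obtain ⟨hα1, hα2, hα3⟩ := hα
    refine ⟨ih α hα1 ρ hρα hρ, ?_, ?_⟩
    · rintro rfl
      exact hα3 (huniq α hα1 (lt_of_le_of_ne hρα (Ne.symm hα2)))
    · rintro rfl
      exact hα3 (huniq α hα1 (lt_of_lt_of_le hστ hρα))

lemma Cl_down {m r : ℕ} : ∀ σ ∈ Cl m r, ∀ ρ, ρ ⊆ σ → ρ.Nonempty → ρ ∈ Cl m r := by
  intro σ hσ ρ hρ hne
  rw [mem_Cl] at hσ ⊢
  exact ⟨hρ.trans hσ.1, hne, fun x hx y hy => hσ.2.2 x (hρ hx) y (hρ hy)⟩

theorem collapse (m r : ℕ) : ∃ L, Collapses (Cl m r) L ∧ IsSubcomplex L (skeleton (Cl m r) (2 ^ r - 1)) := by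
  classical
  have hlt : ∀ x ∈ range m, x < 2 ^ m := fun x hx =>
    (mem_range.1 hx).trans Nat.lt_two_pow_self
  let u : ℕ → (TT (r + 1) → FF Bool m (r + 1)) := fun x => uu (r + 1) (str m x)
  have key := collapse_low (F := FF Bool m (r + 1)) (Cl m r) (range m) u (2 ^ r)
    Nat.one_le_two_pow (fun σ hσ => (mem_Cl.1 hσ).2.1) (fun σ hσ => (mem_Cl.1 hσ).1)
    Cl_down (fun v => uu_ne_zero _) ?_ ?_
  · obtain ⟨L, h1, h2, h3⟩ := key
    refine ⟨L, h1, ?_, collapses_down h1 Cl_down⟩
    intro σ hσ
    unfold skeleton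
    rw [mem_filter]
    refine ⟨h2 hσ, ?_⟩
    have := h3 σ hσ
    have h4 : 1 ≤ 2 ^ r := Nat.one_le_two_pow
    omega
  · -- faces are closed under adding spanned vertices
    intro σ hσ v hv hspan
    rw [mem_Cl] at hσ ⊢
    obtain ⟨h1, h2, h3⟩ := hσ
    have h4 : ∀ x ∈ σ, ∀ y ∈ σ, hd x y ≤ r := by
      intro x hx y hy
      by_cases hxy : x = y
      · subst hxy
        rw [hd_self]
        exact Nat.zero_le _
      · exact h3 x hx y hy hxy
    have h5 : ∀ w ∈ σ, hd v w ≤ r := by
      intro w hw
      rw [← hdist_str (hlt v hv) (hlt w (h1 hw))]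
      refine hdist_le_of_mem_span (str m '' (σ : Set ℕ)) _ _ ?_ ?_
      · rw [← Set.image_comp]
        exact hspan
      · rintro _ ⟨x, hx, rfl⟩
        rw [hdist_str (hlt x (h1 hx)) (hlt w (h1 hw))]
        exact h4 x hx w hw
    have hsymm : ∀ x y, hd x y = hd y x := by
      intro x y
      unfold hd
      congr 1
      ext i
      exact ne_comm
    refine ⟨insert_subset hv h1, insert_nonempty _ _, ?_⟩
    intro x hx y hy hxy
    rw [mem_insert] at hx hy
    rcases hx with rfl | hx
    · rcases hy with rfl | hy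
      · exact absurd rfl hxy
      · exact h5 y hy
    · rcases hy with rfl | hy
      · rw [hsymm]
        exact h5 x hx
      · exact h3 x hx y hy hxy
  · -- independent faces are small
    intro σ hσ hind
    rw [mem_Cl] at hσ
    obtain ⟨h1, h2, h3⟩ := hσ
    have h5 := card_le_of_indep (t := r) (fun x : (σ : Set ℕ) => str m (x : ℕ)) hind (by
      intro x y
      rw [hdist_str (hlt _ (h1 x.2)) (hlt _ (h1 y.2))]
      by_cases hxy : (x : ℕ) = y
      · rw [hxy, hd_self]
        exact Nat.zero_le _
      · exact h3 _ x.2 _ y.2 hxy)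
    simpa using h5

/-- No complex collapses to its full `k`-skeleton unless it equals it. -/
theorem no_literal_collapse (K : Finset (Finset ℕ)) (k : ℕ)
    (hK : ∀ σ ∈ K, ∀ ρ, ρ ⊆ σ → ρ.Nonempty → ρ ∈ K)
    (hne : skeleton K k ≠ K) : ¬ Collapses K (skeleton K k) := by
  intro h
  rcases Relation.ReflTransGen.cases_tail h with h1 | ⟨M, hM, h2⟩
  · exact hne h1
  · obtain ⟨σ, hσ, τ, hτ, hστ, hc, huniq, he⟩ := h2
    have hMK := collapses_subset hM
    have hMd := collapses_down hM hK
    have hσ1 : σ ∉ skeleton K k := by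
      rw [he, mem_sdiff]
      simp
    have hσ2 : k + 1 < σ.card := by
      by_contra hcon
      push Not at hcon
      apply hσ1
      unfold skeleton
      rw [mem_filter]
      exact ⟨hMK hσ, hcon⟩
    -- another facet of τ
    obtain ⟨x, hx⟩ : σ.Nonempty := card_pos.1 (by omega)
    have hxτ : x ∈ τ := hστ.subset hx
    have hcard : (τ.erase x).card = σ.card := by
      rw [card_erase_of_mem hxτ]
      omega
    have h3 : τ.erase x ∈ M := hMd τ hτ _ (erase_subset _ _) (card_pos.1 (by omega))
    have h4 : τ.erase x ∈ skeleton K k := by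
      rw [he, mem_sdiff, mem_insert, mem_singleton, not_or]
      refine ⟨h3, ?_, ?_⟩
      · intro h5
        rw [← h5] at hx
        exact notMem_erase _ _ hx
      · intro h5
        have := congrArg Finset.card h5
        omega
    unfold skeleton at h4
    rw [mem_filter] at h4
    omega

/-- **Main result.** For all `m` and `r` the clique complex of `G_m^r` collapses to a subcomplex of
its `(2 ^ r - 1)`-skeleton.  The subcomplex is the full `(2 ^ r - 1)`-skeleton only if the complex
has dimension at most `2 ^ r - 1`. -/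
theorem result (m r : ℕ) :
    (∃ L, Collapses (Cl m r) L ∧ IsSubcomplex L (skeleton (Cl m r) (2 ^ r - 1))) ∧
    (Collapses (Cl m r) (skeleton (Cl m r) (2 ^ r - 1)) ↔ skeleton (Cl m r) (2 ^ r - 1) = Cl m r) := by
  refine ⟨collapse m r, ?_, ?_⟩
  · intro h
    by_contra hcon
    exact no_literal_collapse _ _ Cl_down hcon h
  · intro h
    rw [h]
    exact Relation.ReflTransGen.refl

end Pool.Agent.Results.MP_6ffc1e_gt.CollapseHamming
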